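import Pool.Agent.H621.FX.Twr

/-!
# The Tate conjecture for the products of an arbitrary variety with varieties with big monodromy:
# the number of the exceptions is bounded by the Betti numbers

Let `k` be a finitely generated field with Galois group `Γ`, and let `Z` be **any** smooth projective
variety over `k`, with Betti numbers `b_j`. Nothing is assumed about `Z`. Let `X_i`, `i ∈ J`, be a
finite or infinite family of varieties with big monodromy `T_i`: the transcendental cohomology `T_i`
of `X_i` (the orthogonal complement of all algebraic classes) is in the middle degree, numerical and
homological equivalence coincide for `X_i`, and the Lie algebra of the symplectic or orthogonal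
group of `T_i` is an irreducible representation of `Γ` and not commutative. The `X_i` are not related
to each other: for every finite part of the family there is an element of `Γ` (a Frobenius element)
whose eigenvalues on the `T_i` satisfy only the multiplicative relations given by the forms
(`HasGenericElement`).

**Theorem.** There is a finite set `S` of exceptional members of the family, of total rank

`∑_{i ∈ S} ⌊dim T_i / 2⌋ ≤ ∑_{j ≤ dim Z} ⌊b_j / 2⌋`,

such that for all `s` and all products `Y = X_1^(n_1) × ⋯ × X_m^(n_m) × Z^s` of powers of members of
the family which do not belong to `S` (with `n_i < dim T_i` if `dim X_i` is even), in all codimensions: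

the Tate conjecture holds for `Y` **if and only if** it holds for `Z^s`.

More generally one can replace `Z^s` by any variety whose cohomology is generated by the cohomology of
`Z` and by finitely many other members of the family, exceptional or not; so for all products of
powers of `Z` and of the `X_i` the Tate conjecture is reduced to the products of powers of `Z` and of
the exceptional members. The set `S` is given explicitly: `X_i` is exceptional if for **all** elements
`g` of `Γ` the (normalised) eigenvalues of `g` on `T_i` are, up to roots of unity, in the group
generated by the normalised eigenvalues of `g` on the cohomology of `Z` (`IsExceptional`); the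
eigenvalues of one Frobenius element can be enough to see that `X_i` is not exceptional.

## Examples

* `X_i` curves (over a finitely generated field `k` of characteristic zero) of genus `g_i ≥ 1`, such
  that the image of `Γ` in the group of symplectic similitudes of `T_i = H^1(X_i)` is open, whose
  Jacobians are pairwise not isogenous: elliptic curves without complex multiplication, and all
  curves of genus `2`, `6` or of odd genus such that the Jacobian has only the endomorphisms `ℤ` (over
  the algebraic closure). The element which is needed exists by the theory of Frobenius tori of
  Serre: the Zariski closure of the image of `Γ` in the product is as large as possible (Goursat, and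
  Faltings), so some Frobenius element generates a torus of maximal rank modulo roots of unity. By the
  theorem the Jacobians of the exceptional curves have total dimension at most `∑_{j ≤ dim Z} ⌊b_j / 2⌋`.
* `X_i` hypersurfaces or complete intersections of the projective space with big monodromy.
* If `Z` is a curve of genus `g` (`∑ ⌊b_j / 2⌋ = g`), or a product of curves `C_1 × C_2` (with
  `G = H^1(C_1), H^1(C_2)`: total rank `≤ g_1 + g_2`), a surface for which the Tate conjecture is
  known, or a threefold with this property, then the Tate conjecture holds for all `Y` with `s = 1`.
  The Mumford-Tate conjecture for `Z` or its Jacobian is not needed.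
* `Z` a point: the Tate conjecture for all products of powers of the `X_i`.

A factor `H^1(E)` of the cohomology of `Z`, `E` one of the `X_i`, leads to Tate classes in
`H^1(Z) ⊗ H^1(E)` which are not products of classes on the two factors, so exceptions cannot be
avoided. Sufficient conditions (on dimensions or slopes) for a given `X_i` to be unrelated to `Z` are in
the file `UnrelatedMonodromy` of the problem `MP_938ce2_ag`; here there is no condition besides the
exclusion of the exceptional members.

## The formal statement

`W` is a Weil cohomology theory with algebraically closed coefficients (étale cohomology with
coefficients in the closure of `ℚ_ℓ`) on a class of smooth proper varieties, with an action of `Γ` on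
the cohomology of the varieties under consideration. `PRep` is a representation with a nondegenerate
symmetric or alternating form which is multiplied by scalars. The `G_j`, `j ∈ N`, are finitely many
such representations, for instance `G_j = H^j(Z)`, `j ≤ dim Z`, with the forms given by the hard
Lefschetz theorem. `GeneratedBy G Z` says that the cohomology of `Z` is generated by the `G_j`: for
every class `x ≠ 0` there is a linear map from the cohomology to multilinear forms on the `G_j`,
equivariant up to scalars for a subgroup of finite index, which does not kill `x`; this is so for all
powers of `Z`. The semisimplicity of the Galois representations is not assumed. `Tower X T Z U Y` says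
that `Y` is the product of `Z` and of powers of the `X_i`, `i ∈ U`.

## Proof

This is built on the library `H802T`: for a finite family of representations `F` let `L(F)` be the Lie
algebra of the families of skew operators which map all multilinear forms on members of `F`, that are
multiplied by scalars by a subgroup of finite index of `Γ`, to multiples of themselves. If `θ` is an
additive function on the multiplicative group of the coefficients then the operator with the
eigenvalues `θ(α)`, `α` an eigenvalue of `g ∈ Γ`, normalised to be skew, is in `L(F)`.

1. Let `X_i` not be exceptional: for some `g` a normalised eigenvalue `x` of `g` on `T_i` has no power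
in the group `H` generated by the normalised eigenvalues of `g` on the `G_j`. There is a `θ` which is
zero on `H` but not at `x` (`exists_add`). So, for **every** finite family `F` containing `T_i` and the
`G_j`, there is an element of `L(F)` whose components at all `G_j` vanish, while the component at `T_i`
does not (`van_ne`). By the generic elements for pairs the same holds for the other `T_j` in place of
`G_j` (`exists_indep`). As `T_i` is big, `L(F)` contains the Lie algebra of `T_i`, with zero components
elsewhere, which kills all equivariant forms, and the Tate classes on the products with powers of
`X_i` come from those on the other factor and from algebraic classes (`H802T`).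

2. Let `g` be generic for a finite set `A` of exceptional members. The `∑_{i ∈ A} ⌊dim T_i / 2⌋`
independent normalised eigenvalues of `g` have powers in the group generated by the normalised
eigenvalues `b² / c` of `g` on the `G_j` (`c` the multiplier). Since `b ↦ c / b` is an involution of the
eigenvalues on `G_j`, by which `b² / c` goes to its inverse, this group is generated by
`∑_j ⌊dim G_j / 2⌋` elements (`half_all`). This gives the bound (`exc_bound`); in particular `S` is
finite.
-/

universe u

namespace Pool.Agent.Results.MP_0fca13_ag.BoundedExceptions

open Pool.Agent.H914 Pool.Agent.H281R3.HT Pool.Agent.TH125.Gal Pool.Agent.H802T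

section rep

variable {K : Type} [Field K] {Γ : Type} [Group Γ]

/-- `x` is a normalised eigenvalue of `g` on the representation `P`: `x = b ^ 2 / c`, where `b` is an
eigenvalue of `g` and `c` is the factor by which `g` multiplies the form. -/
def IsNormalisedEigenvalue (P : PRep K Γ) (g : Γ) (x : Kˣ) : Prop :=
  ∃ b c : Kˣ, (c : K) = P.mult g ∧ (∃ v : P.V, v ≠ 0 ∧ opr P.ρ g v = (b : K) • v) ∧
    x = b ^ 2 / c

/-- The representation `P` is exceptional for the family `G`: for all elements `g` all normalised
eigenvalues of `g` on `P` have a power in the group generated by the normalised eigenvalues of `g` on
the `G j`. -/
def IsExceptional {N : Type} (G : N → PRep K Γ) (P : PRep K Γ) : Prop :=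
  ∀ (g : Γ) (x : Kˣ), IsNormalisedEigenvalue P g x →
    ∃ n : ℕ, 0 < n ∧ x ^ n ∈ Subgroup.closure {y | ∃ j, IsNormalisedEigenvalue (G j) g y}

/-- Some element `g` has `∑ i, ⌊dim (T i) / 2⌋` multiplicatively independent normalised eigenvalues,
`⌊dim (T i) / 2⌋` of them on `T i`. (There are no more, as the inverse of a normalised eigenvalue is a
normalised eigenvalue.) -/
def HasGenericElement {ι : Type} (T : ι → PRep K Γ) : Prop :=
  ∃ (g : Γ) (x : (Σ i, Fin ((T i).dim / 2)) → Kˣ), (∀ q, IsNormalisedEigenvalue (T q.1) g (x q)) ∧
    LinearIndependent ℤ fun q => Additive.ofMul (x q)

end rep

variable {k : Type u} [Field k] {𝒱 : VarClass k} {ops : CycleOps 𝒱}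
  {W : WeilCohomology.{u, 0} ops} {Γ : Type} [Group Γ]

/-- A finite or infinite family of varieties with big monodromy: `Γ` acts on the cohomology of the
varieties `X i` like a Galois group; numerical and homological equivalence coincide for them; their
transcendental cohomology `T i` is in the middle degree and has big monodromy; all finite subfamilies
have a generic element. -/
structure BigFamily (χ : Γ →* W.Kˣ) {J : Type} (X : J → GVar W Γ) (T : J → PRep W.K Γ) : Prop where
  galois : ∀ i, IsGaloisAct χ (W.gr (X i).X) (X i).X.dim (W.tr (X i).X)
    (algClasses W (X i).X) (X i).act
  homEqNum : ∀ i, HomEqNum W (X i).X
  middle : ∀ i, Within (transcendental W (X i).X) (W.gr (X i).X (X i).X.dim)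
  trans : ∀ i, IsTrans (X i) (T i)
  big : ∀ i, Big (T i).ρ (T i).form
  generic : ∀ A : Finset J, HasGenericElement fun i : A => T i

/-- **The Tate conjecture for products: the exceptions are bounded by the Betti numbers.** -/
theorem result [IsAlgClosed W.K] (χ : Γ →* W.Kˣ) {J N : Type} [Fintype N] (X : J → GVar W Γ)
    (T : J → PRep W.K Γ) (hX : BigFamily χ X T) (G : N → PRep W.K Γ) :
    ∃ S : Finset J, (∀ i, i ∈ S ↔ IsExceptional G (T i)) ∧
      ∑ i ∈ S, (T i).dim / 2 ≤ ∑ j, (G j).dim / 2 ∧
      ∀ (B : Finset J) (Z : GVar W Γ), GeneratedBy (Sum.elim (fun i : B => T i) G) Z →
        ∀ (U : Set J) (Y : GVar W Γ), Tower X T Z U Y → (∀ i ∈ U, i ∉ B ∧ i ∉ S) →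
          (TateConjecture χ Y ↔ TateConjecture χ Z) := by
  have h : Pool.Agent.H621.FX.Mem χ X T :=
    ⟨hX.galois, hX.homEqNum, hX.middle, hX.trans, hX.big, hX.generic⟩
  obtain ⟨S, h1, h2⟩ := Pool.Agent.H621.FX.exists_exc h G
  refine ⟨S, h2, h1, fun B Z hZ U Y hY hU => ?_⟩
  exact Pool.Agent.H621.FX.tate_tower h hZ hY fun i hi =>
    ⟨(hU i hi).1, fun he => (hU i hi).2 ((h2 i).2 he)⟩

end Pool.Agent.Results.MP_0fca13_ag.BoundedExceptions
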